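import Pool.Agent.MWI.StmtsT

/-!
# MWI row EN1 (MP_23468a_al)
-/

set_option autoImplicit false

namespace Pool.Agent.MWI.H50

open Pool.Agent.Helper14_MV Pool.Agent.Helper2_MV Pool.Agent.MWF Pool.Agent.MWI

theorem en1 : En1Stmt := by
  intro n β hTy r hr h
  have hn := hTy.pos
  have hit : ∀ j : ℕ, RR β [0, 0, 1] ([0, 0, 1] ++ List.replicate (r * j) 0) := by
    intro j
    induction j with
    | zero => exact RR.refl (β := β) [0, 0, 1]
    | succ j ih =>
      have h1 : RR β ([0, 0, 1] ++ List.replicate (r * j) 0)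
          (([0, 0, 1] ++ List.replicate r 0) ++ List.replicate (r * j) 0) :=
        h.append (RR.refl _)
      have e : ([0, 0, 1] ++ List.replicate r 0) ++ List.replicate (r * j) 0 =
          [0, 0, 1] ++ List.replicate (r * (j + 1)) 0 := by
        rw [List.append_assoc, ← List.replicate_add]
        congr 2
        rw [Nat.mul_succ, Nat.add_comm]
      rw [e] at h1
      exact rtr ih h1
  by_cases hn2 : 2 ≤ n
  · have h1 : RR β (Rp (r * n) 0) (Rp n 0) := by
      refine per_eq' hTy.per ?_ hn2 (u := 0) (v := r - 1) ?_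
      · calc 2 ≤ 1 * n := by omega
          _ ≤ r * n := Nat.mul_le_mul_right n hr
      · obtain ⟨q, rfl⟩ : ∃ q, r = q + 1 := ⟨r - 1, by omega⟩
        rw [Nat.add_sub_cancel]
        ring
    exact rtr (hit n) ((RR.refl (β := β) [0, 0, 1]).append h1)
  · have hn1 : n = 1 := by omega
    subst hn1
    by_cases hr2 : 2 ≤ r
    · have h1 : RR β (Rp r 0) (Rp 2 0) :=
        per_eq' hTy.per hr2 (le_refl 2) (u := 0) (v := r - 2) (by omega)
      have h2 : RR β [0, 0, 1] ([0, 0, 1] ++ Rp 2 0) :=
        rtr h ((RR.refl (β := β) [0, 0, 1]).append h1)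
      exact rtr h2 (RR.symm hTy.rn)
    · have hr1 : r = 1 := by omega
      subst hr1
      exact h

end Pool.Agent.MWI.H50
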