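import Pool.Agent.MWI.StmtsE

/-!
# MWI row IM4: the letters `z` are fixed and the main block is the image (MP_23468a_al)
-/

set_option autoImplicit false

namespace Pool.Agent.MWI.H50

open Pool.Agent.Helper14_MV Pool.Agent.Helper2_MV Pool.Agent.MWF Pool.Agent.MWI

/-- a letter `z` -/
def zl (c : ℕ) : Bool := decide (c % 3 = 2)

theorem zl_pl (L : List ℕ) : (pl L).filter zl = zz L := by
  induction L with
  | nil => rfl
  | cons x L ih =>
    have h1 : pl (x :: L) = (3 * x + 2) :: (3 * x + 1) :: pl L := rfl
    have h2 : zz (x :: L) = (3 * x + 2) :: zz L := rfl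
    have h3 : zl (3 * x + 2) = true := by
      unfold zl
      exact decide_eq_true (by omega)
    have h4 : ¬ zl (3 * x + 1) = true := by
      unfold zl
      simp only [decide_eq_true_eq]
      omega
    rw [h1, h2, List.filter_cons_of_pos h3, List.filter_cons_of_neg h4, ih]

theorem zl_pr (L : List ℕ) : (pr L).filter zl = zz L := by
  induction L with
  | nil => rfl
  | cons x L ih =>
    have h1 : pr (x :: L) = (3 * x + 1) :: (3 * x + 2) :: pr L := rfl
    have h2 : zz (x :: L) = (3 * x + 2) :: zz L := rfl
    have h3 : zl (3 * x + 2) = true := by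
      unfold zl
      exact decide_eq_true (by omega)
    have h4 : ¬ zl (3 * x + 1) = true := by
      unfold zl
      simp only [decide_eq_true_eq]
      omega
    rw [h1, h2, List.filter_cons_of_neg h4, List.filter_cons_of_pos h3, ih]

theorem zl_nz (w : List ℕ) : (w.filter nz).filter zl = w.filter zl := by
  rw [List.filter_filter]
  congr 1
  funext c
  unfold zl nz
  by_cases h : c % 3 = 2
  · simp [h]
  · simp [h]

theorem flatMap_sub {f g : ℕ → List ℕ} (h : ∀ x, (f x).Sublist (g x)) (L : List ℕ) :
    (L.flatMap f).Sublist (L.flatMap g) := by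
  induction L with
  | nil => exact List.Sublist.refl _
  | cons x L ih =>
    simp only [List.flatMap_cons]
    exact (h x).append ih

theorem eq_of_single {F : ℕ → List ℕ} : ∀ L : List ℕ, (∀ E ∈ L, (F E).length = 1) →
    L.flatMap F = zz L → ∀ E ∈ L, F E = [3 * E + 2] := by
  intro L
  induction L with
  | nil =>
    intro _ _ E hE
    simp at hE
  | cons x L ih =>
    intro h1 h2 E hE
    rw [List.flatMap_cons] at h2
    have h3 : zz (x :: L) = [3 * x + 2] ++ zz L := rfl
    rw [h3] at h2
    have h4 := List.append_inj h2 (by rw [h1 x List.mem_cons_self]; rfl)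
    rcases List.mem_cons.1 hE with rfl | hE
    · exact h4.1
    · exact ih (fun E hE => h1 E (List.mem_cons_of_mem _ hE)) h4.2 E hE

theorem fix {L : List ℕ} {f blk : ℕ → List ℕ} {w p q : List ℕ}
    (hb : ∀ x, (f (3 * x + 2)).Sublist ((blk x).flatMap f))
    (hf : ∀ E ∈ L, ∃ E', f (3 * E + 2) = [3 * E' + 2])
    (h : p ++ ((L.flatMap blk).flatMap f ++ q) = w) (hw : w.filter zl = zz L) :
    ∀ E ∈ L, f (3 * E + 2) = [3 * E + 2] := by
  have h1 : (L.flatMap (fun E => f (3 * E + 2))).Sublist w := by
    rw [← h, List.flatMap_assoc]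
    exact ((flatMap_sub hb L).trans (List.sublist_append_left _ q)).trans
      (List.sublist_append_right p _)
  have h2 : (L.flatMap (fun E => f (3 * E + 2))).filter zl = L.flatMap (fun E => f (3 * E + 2)) := by
    rw [List.filter_eq_self]
    intro c hc
    obtain ⟨E, hE, hcE⟩ := List.mem_flatMap.1 hc
    obtain ⟨E', hE'⟩ := hf E hE
    rw [hE', List.mem_singleton] at hcE
    subst hcE
    unfold zl
    exact decide_eq_true (by omega)
  have h3 : (L.flatMap (fun E => f (3 * E + 2))).Sublist (zz L) := by
    have := h1.filter zl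
    rwa [h2, hw] at this
  have h4 : ∀ E ∈ L, (f (3 * E + 2)).length = 1 := by
    intro E hE
    obtain ⟨E', hE'⟩ := hf E hE
    rw [hE']
    rfl
  have h5 : ∀ L' : List ℕ, (∀ E ∈ L', (f (3 * E + 2)).length = 1) →
      (L'.flatMap (fun E => f (3 * E + 2))).length = (zz L').length := by
    intro L'
    induction L' with
    | nil => intro _; rfl
    | cons x L' ih =>
      intro hx
      have h6 := ih (fun E hE => hx E (List.mem_cons_of_mem _ hE))
      have h7 := hx x List.mem_cons_self
      have h8 : (zz (x :: L')).length = (zz L').length + 1 := rfl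
      rw [List.flatMap_cons, List.length_append, h6, h7, h8]
      omega
  exact eq_of_single L h4 (h3.eq_of_length (h5 L h4))

theorem im4 (hMMF : MmfStmt) (hPJS : PjsStmt) : Im4Stmt := by
  intro P Q m s' e' w M Y hPQ hFct s e f a c p q hM hp hq hn hz
  obtain ⟨_, _, _, _, hperm, _, hmem⟩ := hPJS P Q m 0 0 (by omega)
  obtain ⟨hMM, _, _, _⟩ := hMMF m s e
  have hPm := hperm hPQ
  -- lengths
  have hlen : ∀ c ∈ MM m s (nm e 0) (nm e 1) (nm e 2), (f c).length = 1 := by
    intro c hc
    have hc' := hMM.mem_iff.1 hc
    simp only [List.mem_cons] at hc'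
    have hnm : ∀ i < 3, (f (3 * i)).length = 1 := by
      intro i hi
      obtain ⟨j, _, hj⟩ := hn i hi
      rw [hj]
      rfl
    rcases hc' with h | h | h | h | h | h | h
    · subst h; exact hnm 0 (by omega)
    · subst h; exact hnm 0 (by omega)
    · subst h; exact hnm 1 (by omega)
    · subst h; exact hnm 1 (by omega)
    · subst h; exact hnm 2 (by omega)
    · subst h; exact hnm 2 (by omega)
    · unfold zz at h
      obtain ⟨E, hE, rfl⟩ := List.mem_map.1 h
      obtain ⟨E', hE'⟩ := hz E ((hmem E).1 hE)
      rw [hE']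
      rfl
  have hfl : ∀ L : List ℕ, (∀ c ∈ L, (f c).length = 1) → (L.flatMap f).length = L.length := by
    intro L
    induction L with
    | nil => intro _; rfl
    | cons x L ih =>
      intro hx
      rw [List.flatMap_cons, List.length_append, ih (fun c hc => hx c (List.mem_cons_of_mem _ hc)),
        hx x List.mem_cons_self, List.length_cons]
      omega
  have h1 := congrArg List.length hM
  rw [List.length_append, List.length_append, hfl _ hlen, hMM.length_eq, hFct.pM.length_eq] at h1
  have ha : a = [] := List.eq_nil_of_length_eq_zero (by omega)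
  have hc : c = [] := List.eq_nil_of_length_eq_zero (by omega)
  refine ⟨ha, hc, ?_⟩
  subst ha
  subst hc
  have hL : ∀ E ∈ stL P, f (3 * E + 2) = [3 * E + 2] := by
    refine fix (blk := fun i => [3 * i + 2, 3 * i + 1]) (p := p) (q := []) (w := pl (stL P)) ?_ ?_
      ?_ (zl_pl _)
    · intro x
      simp only [List.flatMap_cons]
      exact List.sublist_append_left _ _
    · intro E hE
      exact hz E ((hmem E).1 (hPm.mem_iff.1 (List.mem_append_left _ hE)))
    · rw [List.append_nil] at hp ⊢
      exact hp
  have hR : ∀ E ∈ stQ Q ++ st3 Q, f (3 * E + 2) = [3 * E + 2] := by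
    refine fix (blk := fun i => [3 * i + 1, 3 * i + 2]) (p := []) (q := q)
      (w := pr (stQ Q) ++ Y) ?_ ?_ ?_ ?_
    · intro x
      simp only [List.flatMap_cons, List.flatMap_nil, List.append_nil]
      exact List.sublist_append_right _ _
    · intro E hE
      exact hz E ((hmem E).1 (hPm.mem_iff.1 (List.mem_append_right _ hE)))
    · rw [List.nil_append] at hq ⊢
      rw [← hq]
      congr 1
      unfold pr
      rw [List.flatMap_append]
    · rw [List.filter_append, zl_pr, ← zl_nz Y, hFct.fY, zl_pr]
      unfold zz
      rw [List.map_append]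
  intro E hE
  rcases List.mem_append.1 (hPm.mem_iff.2 ((hmem E).2 hE)) with h | h
  · exact hL E h
  · exact hR E h

end Pool.Agent.MWI.H50
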